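import Pool.Agent.Helper27.RV.St

/-!
Project RV, module ATM: at most one index has `succ (t n).card = m`.
-/

set_option autoImplicit false

open Cardinal Ordinal Set

universe u

namespace Pool.Agent.Helper2.RV

open Pool.Agent.Helper27.RV Pool.Agent.Helper65.GS

theorem pATM : StATM.{u} := by
  intro δ b m A t hA h1 h2 h3
  have hmono : Monotone δ := monotone_nat_of_le_succ fun n => (h1 n).trans (h2 n)
  have hne : ∀ n ∈ A, ∀ n' ∈ A, n < n' → t n ≠ t n' := by
    intro n hn n' hn' hlt heq
    have h4 : (t n).cof < (t n').cof :=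
      ((h3 n hn).2.2.2.trans ((h2 n).trans (hmono hlt))).trans_lt (h3 n' hn').2.2.1
    rw [heq] at h4
    exact lt_irrefl _ h4
  have hsub : {n ∈ A | ¬ Order.succ (t n).card < m}.Subsingleton := by
    rintro n ⟨hn, hn2⟩ n' ⟨hn', hn2'⟩
    have h5 : ∀ k ∈ A, ¬ Order.succ (t k).card < m → Order.succ (t k).card = m := by
      intro k hk hk2
      refine le_antisymm (Order.succ_le_of_lt ?_) (not_lt.1 hk2)
      exact Cardinal.lt_ord.1 (h3 k hk).1
    have h6 : (t n).card = (t n').card :=
      Order.succ_injective ((h5 n hn hn2).trans (h5 n' hn' hn2').symm)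
    have h7 : t n = t n' := by
      have e1 := (h3 n hn).2.1
      have e2 := (h3 n' hn').2.1
      unfold IsCard at e1 e2
      rw [← e1, ← e2, h6]
    rcases lt_trichotomy n n' with h | h | h
    · exact (hne n hn n' hn' h h7).elim
    · exact h
    · exact (hne n' hn' n hn h h7.symm).elim
  by_contra hcon
  rw [Set.not_infinite] at hcon
  apply hA
  refine (hcon.union hsub.finite).subset ?_
  intro n hn
  by_cases h : Order.succ (t n).card < m
  · exact Or.inl ⟨hn, h⟩
  · exact Or.inr ⟨hn, h⟩

end Pool.Agent.Helper2.RV
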