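import Pool.Agent.Helper27.RV.St

/-!
Project RV, module F1: a large function has large values off a member of the ideal.
-/

set_option autoImplicit false

open Cardinal Ordinal Set

universe u

namespace Pool.Agent.Helper2.RV

open Pool.Agent.Helper27.RV

theorem pF1 : StF1.{u} := by
  classical
  intro K m L J c hm hL
  have he : ∀ l, ∃ e : K → Ordinal.{u}, (c l).card ≤ #K → 0 < c l → ∀ a < c l, ∃ k, e k = a := by
    intro l
    by_cases h : (c l).card ≤ #K ∧ 0 < c l
    · obtain ⟨e, -, he⟩ := enum_ord h.1 h.2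
      exact ⟨e, fun _ _ => he⟩
    · exact ⟨fun _ => 0, fun h1 h2 => (h ⟨h1, h2⟩).elim⟩
  choose e he using he
  obtain ⟨S, h1, h2⟩ := hL PUnit (by rwa [mk_punit]) (fun _ l k => e l k)
  refine h2 _ (subset_univ _) ⟨univ, ?_, ?_⟩
  · rw [mk_univ, mk_punit]
    exact one_le_aleph0.trans (aleph0_le_aleph 1)
  · intro l hl n
    have h3 := h1 l trivial n
    obtain ⟨k, hk⟩ := he l hl (bot_le.trans_lt h3) _ h3
    exact ⟨PUnit.unit, trivial, k, hk.symm⟩

end Pool.Agent.Helper2.RV
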