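import Pool.Agent.Helper27.RV.St

/-!
Project RV, module NCT: a function into `t` which avoids fewer than `m` small sets.
-/

set_option autoImplicit false

open Cardinal Ordinal Set

universe u

namespace Pool.Agent.Helper2.RV

open Pool.Agent.Helper27.RV

theorem pNCT : StNCT.{u} := by
  classical
  intro K β δ m t h ι Dd hι hD
  have hP : ∀ i, ∃ P : K → Ordinal.{u}, ∀ d ∈ Dd i, ∃ k, (d.toOrd : Ordinal.{u}) = P k := by
    intro i
    by_cases hne : (Dd i).Nonempty
    · obtain ⟨e, -, he⟩ := enum_set (Dd i) (hD i) hne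
      exact ⟨fun k => ((e k).toOrd : Ordinal.{u}), fun d hd => by
        obtain ⟨k, hk⟩ := he d hd
        exact ⟨k, by simp only [hk]⟩⟩
    · exact ⟨fun _ => 0, fun d hd => (hne ⟨d, hd⟩).elim⟩
  choose P hP using hP
  unfold Cov at h
  push Not at h
  obtain ⟨y, hy, h2⟩ := h ι hι P
  refine ⟨fun e => ToType.mk ⟨y e, hy e⟩, fun I hI => ?_⟩
  obtain ⟨e, he⟩ := h2 I hI
  refine ⟨e, fun i hi hmem => ?_⟩
  obtain ⟨k, hk⟩ := hP i _ hmem
  exact he i hi k (by simpa [ToType.toOrd] using hk)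

end Pool.Agent.Helper2.RV
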