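import Pool.Agent.Helper27.RV.St

/-!
Project RV, module SUBD: subsets of small sets are small.
-/

set_option autoImplicit false

open Cardinal Ordinal Set

universe u

namespace Pool.Agent.Helper2.RV

open Pool.Agent.Helper27.RV

theorem pSUBD (h1 : StRST.{u}) : StSUBD.{u} := by
  rintro K m L J c B B' ⟨L', p, J', c', hJ, hp, hf, hX, hc, hL⟩ hB
  obtain ⟨g1, g2⟩ := h1 K m L' J' c' (p ⁻¹' B') hJ (hL.mono (subset_univ _))
  refine ⟨(p ⁻¹' B' : Set L'), fun y => p y, _, fun y => c' y, g1, fun y => y.2,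
    fun l => ?_, ?_, fun y => hc y, g2⟩
  · have h2 : ((fun y : (p ⁻¹' B' : Set L') => p y) ⁻¹' {l}) = Subtype.val ⁻¹' (p ⁻¹' {l}) := rfl
    rw [h2]
    exact (hf l).preimage Subtype.val_injective
  · intro X hXB hXJ
    refine hX X (hXB.trans hB) ?_
    have h3 : Subtype.val '' ((fun y : (p ⁻¹' B' : Set L') => p y) ⁻¹' X) = p ⁻¹' X := by
      ext y
      constructor
      · rintro ⟨z, hz, rfl⟩
        exact hz
      · intro hy
        exact ⟨⟨y, hXB hy⟩, hy, rfl⟩
    have h4 : Subtype.val '' ((fun y : (p ⁻¹' B' : Set L') => p y) ⁻¹' X) ∈ J' := hXJ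
    rwa [h3] at h4

end Pool.Agent.Helper2.RV
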